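import Mathlib

/-! Package KL3 of the project SG (MP_66bcf1_co): Kleitman's theorem with uniqueness for odd
diameters, from the case of even diameters. -/

set_option autoImplicit false

open Finset

namespace Pool.Agent.Helper87.SG

/-- Kleitman's theorem for even diameters, with uniqueness -/
def KL2Stm : Prop := ∀ (ι : Type) [Fintype ι] [DecidableEq ι] (d : ℕ) (F : Finset (Finset ι)),
  2 * d + 1 ≤ Fintype.card ι → (∀ A ∈ F, ∀ B ∈ F, #(symmDiff A B) ≤ 2 * d) →
  #F ≤ ∑ i ∈ range (d + 1), (Fintype.card ι).choose i ∧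
  (2 * d + 2 ≤ Fintype.card ι → #F = ∑ i ∈ range (d + 1), (Fintype.card ι).choose i →
    ∃ C : Finset ι, F = univ.filter (fun A => #(symmDiff A C) ≤ d))

/-- Kleitman's theorem for odd diameters, with uniqueness -/
def KL3Stm : Prop := ∀ (ι : Type) [Fintype ι] [DecidableEq ι] (d : ℕ) (F : Finset (Finset ι)),
  2 * d + 2 ≤ Fintype.card ι → (∀ A ∈ F, ∀ B ∈ F, #(symmDiff A B) ≤ 2 * d + 1) →
  #F ≤ 2 * ∑ i ∈ range (d + 1), (Fintype.card ι - 1).choose i ∧
  (2 * d + 3 ≤ Fintype.card ι → #F = 2 * ∑ i ∈ range (d + 1), (Fintype.card ι - 1).choose i →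
    ∃ (f : ι) (C : Finset ι), F = univ.filter (fun A => #((symmDiff A C).erase f) ≤ d))

section

variable {ι : Type} [DecidableEq ι]

lemma card_sd (A B : Finset ι) : #(symmDiff A B) + 2 * #(A ∩ B) = #A + #B := by
  have h1 : #(symmDiff A B) = #(A \ B) + #(B \ A) := by
    rw [symmDiff_def, Finset.sup_eq_union, Finset.card_union_of_disjoint]
    exact Finset.disjoint_left.2 fun x hx hx' =>
      (Finset.mem_sdiff.1 hx).2 (Finset.mem_sdiff.1 hx').1
  have h2 := Finset.card_sdiff_add_card_inter A B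
  have h3 := Finset.card_sdiff_add_card_inter B A
  rw [Finset.inter_comm] at h3
  omega

lemma par (A B : Finset ι) : #(symmDiff A B) % 2 = (#A + #B) % 2 := by
  have := card_sd A B
  omega

lemma erase_iff (D : Finset ι) (f : ι) (d : ℕ) (h : #D % 2 = d % 2) :
    #(D.erase f) ≤ d ↔ #D ≤ d := by
  have h1 : #(D.erase f) ≤ #D := Finset.card_erase_le
  have h2 : #D - 1 ≤ #(D.erase f) := Finset.pred_card_le_card_erase
  omega

end

section

variable {ι : Type} [Fintype ι] [DecidableEq ι]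

/-- deletion of a coordinate -/
def del (f : ι) (A : Finset ι) : Finset {x // x ≠ f} := A.subtype (· ≠ f)

lemma card_del (f : ι) (A B : Finset ι) :
    #(symmDiff (del f A) (del f B)) = #((symmDiff A B).erase f) := by
  have h1 : symmDiff (del f A) (del f B) = (symmDiff A B).subtype (· ≠ f) := by
    ext x
    simp [del, Finset.mem_symmDiff]
  rw [h1, Finset.card_subtype, Finset.filter_ne']

lemma del_inj (f : ι) {A B : Finset ι} (hAB : #A % 2 = #B % 2) (h : del f A = del f B) :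
    A = B := by
  have h1 := card_del f A B
  rw [h, symmDiff_self] at h1
  have h2 : #(symmDiff A B) - 1 ≤ #((symmDiff A B).erase f) := Finset.pred_card_le_card_erase
  have h3 := par A B
  have h4 : #(symmDiff A B) = 0 := by
    simp at h1
    omega
  rw [Finset.card_eq_zero] at h4
  exact symmDiff_eq_bot.1 h4

lemma cls (hKL : KL2Stm) (d e : ℕ) (he : e < 2) (P : Finset (Finset ι))
    (hn : 2 * d + 2 ≤ Fintype.card ι) (hP : ∀ A ∈ P, #A % 2 = e)
    (hD : ∀ A ∈ P, ∀ B ∈ P, #(symmDiff A B) ≤ 2 * d + 1) :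
    #P ≤ ∑ i ∈ range (d + 1), (Fintype.card ι - 1).choose i ∧
    (2 * d + 3 ≤ Fintype.card ι → #P = ∑ i ∈ range (d + 1), (Fintype.card ι - 1).choose i →
      ∃ c : Finset ι, #c % 2 = (d + e) % 2 ∧ ∀ A, A ∈ P ↔ (#A % 2 = e ∧ #(symmDiff A c) ≤ d)) := by
  classical
  obtain ⟨f⟩ : Nonempty ι := Fintype.card_pos_iff.1 (by omega)
  have hκ : Fintype.card {x : ι // x ≠ f} = Fintype.card ι - 1 := by
    rw [Fintype.card_subtype, Finset.filter_ne', Finset.card_erase_of_mem (Finset.mem_univ f),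
      Finset.card_univ]
  have hinj : Set.InjOn (del f) (P : Set (Finset ι)) := by
    intro A hA B hB h
    exact del_inj f ((hP A hA).trans (hP B hB).symm) h
  have hG : #(P.image (del f)) = #P := Finset.card_image_of_injOn hinj
  have hdiam : ∀ A ∈ P.image (del f), ∀ B ∈ P.image (del f), #(symmDiff A B) ≤ 2 * d := by
    intro A' hA' B' hB'
    obtain ⟨A, hA, rfl⟩ := Finset.mem_image.1 hA'
    obtain ⟨B, hB, rfl⟩ := Finset.mem_image.1 hB'
    rw [card_del]
    have h1 := hD A hA B hB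
    have h2 := par A B
    have h3 : #((symmDiff A B).erase f) ≤ #(symmDiff A B) := Finset.card_erase_le
    have h4 := hP A hA
    have h5 := hP B hB
    omega
  obtain ⟨k1, k2⟩ := hKL {x : ι // x ≠ f} d (P.image (del f)) (by omega) hdiam
  rw [hκ, hG] at k1 k2
  refine ⟨k1, fun hn3 heq => ?_⟩
  obtain ⟨C, hC⟩ := k2 (by omega) heq
  set c' : Finset ι := C.map (Function.Embedding.subtype _) with hc'
  have hfc : f ∉ c' := by
    rw [hc', Finset.mem_map]
    rintro ⟨x, -, hx⟩
    exact x.2 hx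
  have hdel : ∀ c : Finset ι, c = c' ∨ c = insert f c' → del f c = C := by
    rintro c (rfl | rfl)
    · ext x
      simp only [del, Finset.mem_subtype, hc', Finset.mem_map, Function.Embedding.coe_subtype]
      constructor
      · rintro ⟨y, hy, hxy⟩
        rwa [← Subtype.ext hxy]
      · intro hx
        exact ⟨x, hx, rfl⟩
    · ext x
      simp only [del, Finset.mem_subtype, Finset.mem_insert, hc', Finset.mem_map,
        Function.Embedding.coe_subtype]
      constructor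
      · rintro (h | ⟨y, hy, hxy⟩)
        · exact absurd h x.2
        · rwa [← Subtype.ext hxy]
      · intro hx
        exact Or.inr ⟨x, hx, rfl⟩
  obtain ⟨c, hc, hcp⟩ : ∃ c : Finset ι, (c = c' ∨ c = insert f c') ∧ #c % 2 = (d + e) % 2 := by
    by_cases h : #c' % 2 = (d + e) % 2
    · exact ⟨c', Or.inl rfl, h⟩
    · refine ⟨insert f c', Or.inr rfl, ?_⟩
      rw [Finset.card_insert_of_notMem hfc]
      omega
  refine ⟨c, hcp, fun A => ?_⟩
  have hkey : #A % 2 = e → (#(symmDiff (del f A) C) ≤ d ↔ #(symmDiff A c) ≤ d) := by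
    intro hA
    rw [← hdel c hc, card_del]
    apply erase_iff
    have := par A c
    omega
  constructor
  · intro hA
    refine ⟨hP A hA, (hkey (hP A hA)).1 ?_⟩
    have h1 : del f A ∈ P.image (del f) := Finset.mem_image_of_mem _ hA
    rw [hC, Finset.mem_filter] at h1
    exact h1.2
  · rintro ⟨h1, h2⟩
    have h3 : del f A ∈ P.image (del f) := by
      rw [hC, Finset.mem_filter]
      exact ⟨Finset.mem_univ _, (hkey h1).2 h2⟩
    obtain ⟨B, hB, hBA⟩ := Finset.mem_image.1 h3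
    have h4 : B = A := del_inj f ((hP B hB).trans h1.symm) hBA
    exact h4 ▸ hB

/-- the centers of the two parity classes are neighbours -/
lemma centers (d : ℕ) (c₀ c₁ : Finset ι) (hn : 2 * d + 3 ≤ Fintype.card ι)
    (h0 : #c₀ % 2 = d % 2) (h1 : #c₁ % 2 = (d + 1) % 2)
    (hD : ∀ x y : Finset ι, #x % 2 = 0 → #(symmDiff x c₀) ≤ d → #y % 2 = 1 →
      #(symmDiff y c₁) ≤ d → #(symmDiff x y) ≤ 2 * d + 1) :
    ∃ f, symmDiff c₀ c₁ = {f} := by
  have hodd := par c₀ c₁
  rw [← Finset.card_eq_one]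
  by_contra hne
  have h3 : 3 ≤ #(symmDiff c₀ c₁) := by omega
  set D := symmDiff c₀ c₁ with hDdef
  obtain ⟨j, hjd, hj1, hj2⟩ : ∃ j, j ≤ d ∧ 2 * j ≤ #Dᶜ ∧ 2 * d + 2 ≤ #D + 2 * j := by
    have hc := Finset.card_add_card_compl D
    refine ⟨min d (#Dᶜ / 2), min_le_left _ _, ?_, ?_⟩
    · omega
    · omega
  obtain ⟨W, hWD, hWc⟩ := Finset.exists_subset_card_eq hj1
  obtain ⟨W₁, hW₁, hW₁c⟩ := Finset.exists_subset_card_eq (show j ≤ #W by omega)
  have hZ : d - j ≤ #Wᶜ := by
    have := Finset.card_add_card_compl W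
    omega
  obtain ⟨Z, hZW, hZc⟩ := Finset.exists_subset_card_eq hZ
  set W₂ := W \ W₁ with hW₂
  have hW₂c : #W₂ = j := by
    rw [hW₂, Finset.card_sdiff_of_subset hW₁]
    omega
  have hd1 : Disjoint W₁ Z := Finset.disjoint_left.2 fun x hx hx' =>
    (Finset.mem_compl.1 (hZW hx')) (hW₁ hx)
  have hd2 : Disjoint W₂ Z := Finset.disjoint_left.2 fun x hx hx' =>
    (Finset.mem_compl.1 (hZW hx')) (Finset.mem_sdiff.1 hx).1
  have hX : #(W₁ ∪ Z) = d := by
    rw [Finset.card_union_of_disjoint hd1]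
    omega
  have hY : #(W₂ ∪ Z) = d := by
    rw [Finset.card_union_of_disjoint hd2]
    omega
  have hx1 : symmDiff (symmDiff c₀ (W₁ ∪ Z)) c₀ = W₁ ∪ Z := by
    rw [symmDiff_comm, ← symmDiff_assoc, symmDiff_self, bot_symmDiff]
  have hy1 : symmDiff (symmDiff c₁ (W₂ ∪ Z)) c₁ = W₂ ∪ Z := by
    rw [symmDiff_comm, ← symmDiff_assoc, symmDiff_self, bot_symmDiff]
  have hxy : symmDiff (symmDiff c₀ (W₁ ∪ Z)) (symmDiff c₁ (W₂ ∪ Z)) = D ∪ W := by
    have e1 : symmDiff (symmDiff c₀ (W₁ ∪ Z)) (symmDiff c₁ (W₂ ∪ Z)) =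
        symmDiff D (symmDiff (W₁ ∪ Z) (W₂ ∪ Z)) := by
      rw [hDdef]
      exact symmDiff_symmDiff_symmDiff_comm _ _ _ _
    have e2 : symmDiff (W₁ ∪ Z) (W₂ ∪ Z) = W := by
      ext x
      have a1 : x ∈ W₁ → x ∈ W := fun h => hW₁ h
      have a2 : x ∈ Z → x ∉ W := fun h => Finset.mem_compl.1 (hZW h)
      simp only [Finset.mem_symmDiff, Finset.mem_union, hW₂, Finset.mem_sdiff]
      tauto
    rw [e1, e2]
    ext x
    have a3 : x ∈ W → x ∉ D := fun h => Finset.mem_compl.1 (hWD h)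
    simp only [Finset.mem_symmDiff, Finset.mem_union]
    tauto
  have hcard : #(D ∪ W) = #D + 2 * j := by
    rw [Finset.card_union_of_disjoint, hWc]
    exact Finset.disjoint_left.2 fun x hx hx' => Finset.mem_compl.1 (hWD hx') hx
  have p1 := par c₀ (W₁ ∪ Z)
  have p2 := par c₁ (W₂ ∪ Z)
  have := hD (symmDiff c₀ (W₁ ∪ Z)) (symmDiff c₁ (W₂ ∪ Z)) (by omega) (by rw [hx1]; omega)
    (by omega) (by rw [hy1]; omega)
  rw [hxy, hcard] at this
  omega

end

theorem kl3 (hKL : KL2Stm) : KL3Stm := by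
  intro ι _ _ d F hn hD
  have hsplit : F = F.filter (fun A => #A % 2 = 0) ∪ F.filter (fun A => #A % 2 = 1) := by
    ext A
    simp only [Finset.mem_union, Finset.mem_filter]
    constructor
    · intro h
      rcases Nat.mod_two_eq_zero_or_one #A with h' | h'
      · exact Or.inl ⟨h, h'⟩
      · exact Or.inr ⟨h, h'⟩
    · rintro (h | h)
      · exact h.1
      · exact h.1
  have hcard : #F = #(F.filter (fun A => #A % 2 = 0)) + #(F.filter (fun A => #A % 2 = 1)) := by
    conv_lhs => rw [hsplit]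
    apply Finset.card_union_of_disjoint
    refine Finset.disjoint_left.2 fun A h h' => ?_
    have h1 := (Finset.mem_filter.1 h).2
    have h2 := (Finset.mem_filter.1 h').2
    omega
  obtain ⟨a1, a2⟩ := cls hKL d 0 (by omega) (F.filter (fun A => #A % 2 = 0)) hn
    (fun A hA => (Finset.mem_filter.1 hA).2)
    (fun A hA B hB => hD A (Finset.mem_filter.1 hA).1 B (Finset.mem_filter.1 hB).1)
  obtain ⟨b1, b2⟩ := cls hKL d 1 (by omega) (F.filter (fun A => #A % 2 = 1)) hn
    (fun A hA => (Finset.mem_filter.1 hA).2)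
    (fun A hA B hB => hD A (Finset.mem_filter.1 hA).1 B (Finset.mem_filter.1 hB).1)
  refine ⟨by omega, fun hn3 heq => ?_⟩
  obtain ⟨c₀, hc₀, h₀⟩ := a2 hn3 (by omega)
  obtain ⟨c₁, hc₁, h₁⟩ := b2 hn3 (by omega)
  obtain ⟨f, hf⟩ := centers d c₀ c₁ hn3 (by simpa using hc₀) hc₁ (by
    intro x y hx hxc hy hyc
    have hx' := (h₀ x).2 ⟨hx, hxc⟩
    have hy' := (h₁ y).2 ⟨hy, hyc⟩
    exact hD x (Finset.mem_filter.1 hx').1 y (Finset.mem_filter.1 hy').1)
  refine ⟨f, c₀, ?_⟩
  ext A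
  rw [Finset.mem_filter]
  have hp0 := par A c₀
  have hp1 := par A c₁
  have herase : (symmDiff A c₁).erase f = (symmDiff A c₀).erase f := by
    have e1 : ∀ x, x ≠ f → (x ∈ c₀ ↔ x ∈ c₁) := by
      intro x hx
      have h2 : x ∉ symmDiff c₀ c₁ := by
        rw [hf, Finset.mem_singleton]
        exact hx
      rw [Finset.mem_symmDiff] at h2
      tauto
    ext x
    simp only [Finset.mem_erase, Finset.mem_symmDiff]
    constructor
    · rintro ⟨hx, h⟩
      have := e1 x hx
      exact ⟨hx, by tauto⟩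
    · rintro ⟨hx, h⟩
      have := e1 x hx
      exact ⟨hx, by tauto⟩
  constructor
  · intro hA
    refine ⟨Finset.mem_univ _, ?_⟩
    rcases Nat.mod_two_eq_zero_or_one #A with h' | h'
    · have h2 := (h₀ A).1 (Finset.mem_filter.2 ⟨hA, h'⟩)
      exact (erase_iff _ f d (by omega)).2 h2.2
    · have h2 := (h₁ A).1 (Finset.mem_filter.2 ⟨hA, h'⟩)
      rw [← herase]
      exact (erase_iff _ f d (by omega)).2 h2.2
  · rintro ⟨-, hA⟩
    rcases Nat.mod_two_eq_zero_or_one #A with h' | h'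
    · have h2 := (erase_iff (symmDiff A c₀) f d (by omega)).1 hA
      exact (Finset.mem_filter.1 ((h₀ A).2 ⟨h', h2⟩)).1
    · rw [← herase] at hA
      have h2 := (erase_iff (symmDiff A c₁) f d (by omega)).1 hA
      exact (Finset.mem_filter.1 ((h₁ A).2 ⟨h', h2⟩)).1

end Pool.Agent.Helper87.SG
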