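import Pool.Agent.Helper87.SG.KL3
import Pool.Agent.Helper72.KL.KL1

/-! Package KL2 of the project SG (MP_66bcf1_co): Kleitman's theorem with uniqueness for even
diameters, from Katona's theorem with uniqueness. -/

set_option autoImplicit false
set_option linter.unusedSectionVars false

open Finset FinsetFamily

namespace Pool.Agent.Helper87.SG

variable {ι : Type} [Fintype ι] [DecidableEq ι]

lemma diam_comp {D : ℕ} {F : Finset (Finset ι)} (h : ∀ A ∈ F, ∀ B ∈ F, #(symmDiff A B) ≤ D)
    (i : ι) : ∀ A ∈ 𝓓 i F, ∀ B ∈ 𝓓 i F, #(symmDiff A B) ≤ D := by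
  -- mixed case
  have key : ∀ A B : Finset ι, A ∈ F → A.erase i ∈ F → B ∉ F → insert i B ∈ F →
      #(symmDiff A B) ≤ D := by
    intro A B hA hA' hB hB'
    have hiB : i ∉ B := fun h0 => hB (by rwa [Finset.insert_eq_of_mem h0] at hB')
    by_cases hiA : i ∈ A
    · refine le_trans (Finset.card_le_card ?_) (h _ hA' _ hB')
      intro x hx
      rw [Finset.mem_symmDiff] at hx ⊢
      simp only [Finset.mem_erase, Finset.mem_insert]
      by_cases hxi : x = i
      · subst hxi; tauto
      · tauto
    · refine le_trans (Finset.card_le_card ?_) (h _ hA _ hB')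
      intro x hx
      rw [Finset.mem_symmDiff] at hx ⊢
      simp only [Finset.mem_insert]
      by_cases hxi : x = i
      · subst hxi; tauto
      · tauto
  intro A hA B hB
  rw [Down.mem_compression] at hA hB
  rcases hA with ⟨hA, hA'⟩ | ⟨hA, hA'⟩ <;> rcases hB with ⟨hB, hB'⟩ | ⟨hB, hB'⟩
  · exact h _ hA _ hB
  · exact key A B hA hA' hB hB'
  · rw [symmDiff_comm]
    exact key B A hB hB' hA hA'
  · have hiA : i ∉ A := fun h0 => hA (by rwa [Finset.insert_eq_of_mem h0] at hA')
    have hiB : i ∉ B := fun h0 => hB (by rwa [Finset.insert_eq_of_mem h0] at hB')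
    refine le_trans (Finset.card_le_card ?_) (h _ hA' _ hB')
    intro x hx
    rw [Finset.mem_symmDiff] at hx ⊢
    simp only [Finset.mem_insert]
    by_cases hxi : x = i
    · subst hxi; tauto
    · tauto

/-- the weight -/
def wt (F : Finset (Finset ι)) : ℕ := ∑ A ∈ F, #A

lemma comp_image (i : ι) (F : Finset (Finset ι)) :
    𝓓 i F = F.image (fun A => if A.erase i ∈ F then A else A.erase i) := by
  ext s
  rw [Down.mem_compression, Finset.mem_image]
  constructor
  · rintro (⟨h1, h2⟩ | ⟨h1, h2⟩)
    · exact ⟨s, h1, if_pos h2⟩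
    · have his : i ∉ s := fun h0 => h1 (by rwa [Finset.insert_eq_of_mem h0] at h2)
      refine ⟨insert i s, h2, ?_⟩
      rw [Finset.erase_insert his, if_neg h1]
  · rintro ⟨A, hA, rfl⟩
    by_cases h : A.erase i ∈ F
    · rw [if_pos h]
      exact Or.inl ⟨hA, h⟩
    · rw [if_neg h]
      have hiA : i ∈ A := by
        by_contra h0
        rw [Finset.erase_eq_of_notMem h0] at h
        exact h hA
      exact Or.inr ⟨h, by rwa [Finset.insert_erase hiA]⟩

lemma wt_comp (i : ι) (F : Finset (Finset ι)) (h : 𝓓 i F ≠ F) : wt (𝓓 i F) < wt F := by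
  have hinj : Set.InjOn (fun A : Finset ι => if A.erase i ∈ F then A else A.erase i)
      (F : Set (Finset ι)) := by
    rw [← Finset.card_image_iff, ← comp_image, Down.card_compression]
  unfold wt
  rw [comp_image, Finset.sum_image hinj]
  apply Finset.sum_lt_sum
  · intro A _
    split_ifs
    · exact le_rfl
    · exact Finset.card_erase_le
  · by_contra hcon
    push Not at hcon
    apply h
    rw [comp_image]
    have h1 : ∀ A ∈ F, (if A.erase i ∈ F then A else A.erase i) = A := by
      intro A hA
      have h2 := hcon A hA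
      by_cases h3 : A.erase i ∈ F
      · rw [if_pos h3]
      · rw [if_neg h3] at h2 ⊢
        exact Finset.eq_of_subset_of_card_le (Finset.erase_subset i A) h2
    calc F.image (fun A => if A.erase i ∈ F then A else A.erase i) = F.image id :=
          Finset.image_congr fun A hA => h1 A hA
      _ = F := Finset.image_id

/-- the case of down-sets -/
lemma down_case (d : ℕ) (F : Finset (Finset ι)) (hn : 2 * d + 1 ≤ Fintype.card ι)
    (hD : ∀ A ∈ F, ∀ B ∈ F, #(symmDiff A B) ≤ 2 * d) (hdown : ∀ i, 𝓓 i F = F) :
    #F ≤ ∑ i ∈ range (d + 1), (Fintype.card ι).choose i ∧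
    (2 * d + 2 ≤ Fintype.card ι → #F = ∑ i ∈ range (d + 1), (Fintype.card ι).choose i →
      ∃ C : Finset ι, F = univ.filter (fun A => #(symmDiff A C) ≤ d)) := by
  have her : ∀ A ∈ F, ∀ i, A.erase i ∈ F := by
    intro A hA i
    have := Down.erase_mem_compression (a := i) hA
    rwa [hdown i] at this
  have hsd : ∀ S : Finset ι, ∀ B ∈ F, B \ S ∈ F := by
    intro S
    induction S using Finset.induction_on with
    | empty => intro B hB; simpa using hB
    | insert x S _ ih =>
      intro B hB
      rw [Finset.sdiff_insert]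
      exact her _ (ih B hB) x
  have hU : ∀ A ∈ F, ∀ B ∈ F, #(A ∪ B) ≤ 2 * d := by
    intro A hA B hB
    have h1 := hD A hA (B \ A) (hsd A B hB)
    have h2 : symmDiff A (B \ A) = A ∪ B := by
      ext x
      simp only [Finset.mem_symmDiff, Finset.mem_sdiff, Finset.mem_union]
      tauto
    rwa [h2] at h1
  let e : ι ≃ Fin (Fintype.card ι) := Fintype.equivFin ι
  let em : ι ↪ ℕ := ⟨fun x => (e x).val, fun x y h => e.injective (Fin.ext h)⟩
  let G : Finset (Finset ℕ) := F.map (Finset.mapEmbedding em).toEmbedding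
  have hGmem : ∀ A : Finset ι, A.map em ∈ G ↔ A ∈ F := by
    intro A
    constructor
    · intro h
      obtain ⟨B, hB, hBA⟩ := Finset.mem_map.1 h
      have h3 : B.map em = A.map em := hBA
      rw [Finset.map_inj] at h3
      exact h3 ▸ hB
    · intro h
      exact Finset.mem_map.2 ⟨A, h, rfl⟩
  have hsub : ∀ A : Finset ι, A.map em ⊆ range (Fintype.card ι) := by
    intro A x hx
    obtain ⟨y, _, rfl⟩ := Finset.mem_map.1 hx
    exact Finset.mem_range.2 (e y).isLt
  obtain ⟨k1, k2⟩ := Pool.Agent.Helper72.KL.kl1 (Fintype.card ι) d hn G (by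
    intro A hA
    obtain ⟨B, _, rfl⟩ := Finset.mem_map.1 hA
    exact hsub B) (by
    intro A hA B hB
    obtain ⟨A', hA', rfl⟩ := Finset.mem_map.1 hA
    obtain ⟨B', hB', rfl⟩ := Finset.mem_map.1 hB
    have h3 : (A'.map em) ∪ (B'.map em) = (A' ∪ B').map em := (Finset.map_union _ _).symm
    change #((A'.map em) ∪ (B'.map em)) ≤ 2 * d
    rw [h3, Finset.card_map]
    exact hU A' hA' B' hB')
  have hGc : #G = #F := Finset.card_map _
  rw [hGc] at k1 k2
  refine ⟨k1, fun hn2 heq => ⟨∅, ?_⟩⟩
  have hG := k2 hn2 heq
  ext A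
  rw [← hGmem, hG, Finset.mem_filter, Finset.mem_filter, Finset.mem_powerset, Finset.card_map]
  have h4 : symmDiff A ∅ = A := symmDiff_bot A
  rw [h4]
  exact ⟨fun h => ⟨Finset.mem_univ _, h.2⟩, fun h => ⟨hsub A, h.2⟩⟩

/-- reversal of a compression -/
lemma rev (d : ℕ) (F : Finset (Finset ι)) (hn : 2 * d + 2 ≤ Fintype.card ι)
    (hD : ∀ A ∈ F, ∀ B ∈ F, #(symmDiff A B) ≤ 2 * d) (i : ι) (C : Finset ι)
    (hC : 𝓓 i F = univ.filter (fun A => #(symmDiff A C) ≤ d)) :
    ∃ C' : Finset ι, F = univ.filter (fun A => #(symmDiff A C') ≤ d) := by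
  have hmem : ∀ A, A ∈ 𝓓 i F ↔ #(symmDiff A C) ≤ d := by
    intro A
    rw [hC, Finset.mem_filter]
    exact ⟨fun h => h.2, fun h => ⟨Finset.mem_univ _, h⟩⟩
  have hcn : ∀ S : Finset ι, #S + #Sᶜ = Fintype.card ι := Finset.card_add_card_compl
  -- `i` is not in `C`
  have hiC : i ∉ C := by
    intro hi
    have h1 : d ≤ #({i} : Finset ι)ᶜ := by
      have := hcn {i}
      rw [Finset.card_singleton] at this
      omega
    obtain ⟨Y, hY, hYc⟩ := Finset.exists_subset_card_eq h1
    have hiY : i ∉ Y := fun h => by
      have := hY h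
      simp at this
    have h2 : symmDiff (symmDiff C Y) C = Y := by
      rw [symmDiff_comm, ← symmDiff_assoc, symmDiff_self, bot_symmDiff]
    have h3 : symmDiff C Y ∈ 𝓓 i F := by rw [hmem, h2, hYc]
    have h4 := Down.erase_mem_compression_of_mem_compression h3
    rw [hmem] at h4
    have h5 : symmDiff ((symmDiff C Y).erase i) C = insert i Y := by
      ext x
      simp only [Finset.mem_symmDiff, Finset.mem_erase, Finset.mem_insert]
      by_cases hx : x = i
      · subst hx; tauto
      · tauto
    rw [h5, Finset.card_insert_of_notMem hiY] at h4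
    omega
  have hins : ∀ A : Finset ι, i ∉ A → #(symmDiff (insert i A) C) = #(symmDiff A C) + 1 := by
    intro A hiA
    have h1 : symmDiff (insert i A) C = insert i (symmDiff A C) := by
      ext x
      simp only [Finset.mem_symmDiff, Finset.mem_insert]
      by_cases hx : x = i
      · subst hx; tauto
      · tauto
    rw [h1, Finset.card_insert_of_notMem]
    simp only [Finset.mem_symmDiff]
    tauto
  -- the description of `F`
  have m1 : ∀ A : Finset ι, i ∉ A → ((A ∈ F ∨ insert i A ∈ F) ↔ #(symmDiff A C) ≤ d) := by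
    intro A hiA
    rw [← hmem, Down.mem_compression, Finset.erase_eq_of_notMem hiA]
    tauto
  have m2 : ∀ A : Finset ι, i ∉ A →
      ((A ∈ F ∧ insert i A ∈ F) ↔ #(symmDiff A C) + 1 ≤ d) := by
    intro A hiA
    rw [← hins A hiA, ← hmem, Down.mem_compression, Finset.erase_insert hiA,
      Finset.insert_idem]
    tauto
  -- disjoint sets have the same type
  have t1 : ∀ Y Z : Finset ι, i ∉ Y → i ∉ Z → #Y = d → #Z = d → Disjoint Y Z →
      symmDiff C Y ∈ F → symmDiff C Z ∈ F := by
    intro Y Z hiY hiZ hY hZ hYZ hYF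
    have hiCZ : i ∉ symmDiff C Z := by
      simp only [Finset.mem_symmDiff]
      tauto
    have h1 : #(symmDiff (symmDiff C Z) C) ≤ d := by
      rw [symmDiff_comm, ← symmDiff_assoc, symmDiff_self, bot_symmDiff, hZ]
    rcases (m1 _ hiCZ).2 h1 with h | h
    · exact h
    · exfalso
      have h2 := hD _ hYF _ h
      have h3 : symmDiff (symmDiff C Y) (insert i (symmDiff C Z)) = insert i (Y ∪ Z) := by
        ext x
        have h4 : x ∈ Y → x ∉ Z := fun h5 => Finset.disjoint_left.1 hYZ h5
        simp only [Finset.mem_symmDiff, Finset.mem_insert, Finset.mem_union]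
        by_cases hx : x = i
        · subst hx; tauto
        · tauto
      rw [h3, Finset.card_insert_of_notMem (by simp [hiY, hiZ]),
        Finset.card_union_of_disjoint hYZ] at h2
      omega
  have t2 : ∀ (m : ℕ) (Y Z : Finset ι), #(Y \ Z) = m → i ∉ Y → i ∉ Z → #Y = d → #Z = d →
      symmDiff C Y ∈ F → symmDiff C Z ∈ F := by
    intro m
    induction m with
    | zero =>
      intro Y Z hm _ _ hY hZ hF
      have h1 : Y ⊆ Z := by
        rw [Finset.card_eq_zero, Finset.sdiff_eq_empty_iff_subset] at hm
        exact hm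
      have h2 : Y = Z := Finset.eq_of_subset_of_card_le h1 (by omega)
      exact h2 ▸ hF
    | succ m ih =>
      intro Y Z hm hiY hiZ hY hZ hF
      obtain ⟨y, hy⟩ : (Y \ Z).Nonempty := by
        rw [← Finset.card_pos]; omega
      have hZY : #(Z \ Y) = m + 1 := by
        have h1 := Finset.card_sdiff_add_card_inter Y Z
        have h2 := Finset.card_sdiff_add_card_inter Z Y
        rw [Finset.inter_comm] at h2
        omega
      obtain ⟨z, hz⟩ : (Z \ Y).Nonempty := by
        rw [← Finset.card_pos]; omega
      rw [Finset.mem_sdiff] at hy hz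
      have hzy : z ≠ y := fun h => hz.2 (h ▸ hy.1)
      set Y' : Finset ι := insert z (Y.erase y) with hY'
      have hzY' : z ∉ Y.erase y := fun h => hz.2 (Finset.mem_of_mem_erase h)
      have hY'c : #Y' = d := by
        rw [hY', Finset.card_insert_of_notMem hzY', Finset.card_erase_of_mem hy.1]
        have : 1 ≤ #Y := Finset.card_pos.2 ⟨y, hy.1⟩
        omega
      have hiz : i ≠ z := fun h => hiZ (h ▸ hz.1)
      have hiY' : i ∉ Y' := by
        rw [hY', Finset.mem_insert, not_or]
        exact ⟨hiz, fun h => hiY (Finset.mem_of_mem_erase h)⟩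
      -- a set disjoint from both
      have hW : d ≤ #(insert i (insert z Y))ᶜ := by
        have h1 := hcn (insert i (insert z Y))
        have h2 := Finset.card_insert_le i (insert z Y)
        have h3 := Finset.card_insert_le z Y
        omega
      obtain ⟨W, hWs, hWc⟩ := Finset.exists_subset_card_eq hW
      have hW' : ∀ x ∈ W, x ≠ i ∧ x ≠ z ∧ x ∉ Y := by
        intro x hx
        have := hWs hx
        rw [Finset.mem_compl, Finset.mem_insert, Finset.mem_insert, not_or, not_or] at this
        exact this
      have hiW : i ∉ W := fun h => (hW' i h).1 rfl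
      have d1 : Disjoint Y W := Finset.disjoint_left.2 fun x hx hx' => (hW' x hx').2.2 hx
      have d2 : Disjoint W Y' := by
        refine Finset.disjoint_left.2 fun x hx hx' => ?_
        rw [hY', Finset.mem_insert] at hx'
        rcases hx' with h | h
        · exact (hW' x hx).2.1 h
        · exact (hW' x hx).2.2 (Finset.mem_of_mem_erase h)
      have hF' := t1 W Y' hiW hiY' hWc hY'c d2 (t1 Y W hiY hiW hY hWc d1 hF)
      refine ih Y' Z ?_ hiY' hiZ hY'c hZ hF'
      have h5 : Y' \ Z = (Y \ Z).erase y := by
        ext x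
        simp only [hY', Finset.mem_sdiff, Finset.mem_insert, Finset.mem_erase]
        by_cases hxz : x = z
        · subst hxz; tauto
        · tauto
      rw [h5, Finset.card_erase_of_mem (Finset.mem_sdiff.2 hy), hm]
      omega
  -- coordinates
  have hCA : ∀ A : Finset ι, symmDiff C (symmDiff A C) = A := by
    intro A
    rw [symmDiff_comm A C, ← symmDiff_assoc, symmDiff_self, bot_symmDiff]
  by_cases hex : ∃ Y : Finset ι, i ∉ Y ∧ #Y = d ∧ symmDiff C Y ∈ F
  · obtain ⟨Y, hiY, hY, hYF⟩ := hex
    refine ⟨C, ?_⟩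
    ext A
    rw [Finset.mem_filter]
    have hall : ∀ A : Finset ι, i ∉ A → #(symmDiff A C) = d → A ∈ F := by
      intro A hiA hA
      have h1 := t2 _ Y (symmDiff A C) rfl hiY (by simp only [Finset.mem_symmDiff]; tauto) hY hA hYF
      rwa [hCA] at h1
    by_cases hiA : i ∈ A
    · have hiA0 : i ∉ A.erase i := Finset.notMem_erase i A
      have e1 := m1 (A.erase i) hiA0
      have e2 := m2 (A.erase i) hiA0
      have e3 := hins (A.erase i) hiA0
      have e4 := hall (A.erase i) hiA0
      rw [Finset.insert_erase hiA] at e1 e2 e3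
      constructor
      · intro h
        refine ⟨Finset.mem_univ _, ?_⟩
        rw [e3]
        have h5 := e1.1 (Or.inr h)
        rcases h5.lt_or_eq with h6 | h6
        · exact h6
        · exact e2.1 ⟨e4 h6, h⟩
      · rintro ⟨-, h⟩
        rw [e3] at h
        exact (e2.2 h).2
    · have e1 := m1 A hiA
      have e2 := m2 A hiA
      have e4 := hall A hiA
      constructor
      · intro h
        exact ⟨Finset.mem_univ _, e1.1 (Or.inl h)⟩
      · rintro ⟨-, h⟩
        rcases h.lt_or_eq with h6 | h6
        · exact (e2.2 h6).1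
        · exact e4 h6
  · push Not at hex
    refine ⟨insert i C, ?_⟩
    have hnone : ∀ A : Finset ι, i ∉ A → #(symmDiff A C) = d → A ∉ F := by
      intro A hiA hA hAF
      apply hex (symmDiff A C) (by simp only [Finset.mem_symmDiff]; tauto) hA
      rwa [hCA]
    ext A
    rw [Finset.mem_filter]
    by_cases hiA : i ∈ A
    · have hiA0 : i ∉ A.erase i := Finset.notMem_erase i A
      have e1 := m1 (A.erase i) hiA0
      have e2 := m2 (A.erase i) hiA0
      have e4 := hnone (A.erase i) hiA0
      rw [Finset.insert_erase hiA] at e1 e2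
      have e5 : symmDiff A (insert i C) = symmDiff (A.erase i) C := by
        ext x
        simp only [Finset.mem_symmDiff, Finset.mem_insert, Finset.mem_erase]
        by_cases hx : x = i
        · subst hx; tauto
        · tauto
      rw [e5]
      constructor
      · intro h
        exact ⟨Finset.mem_univ _, e1.1 (Or.inr h)⟩
      · rintro ⟨-, h⟩
        rcases h.lt_or_eq with h6 | h6
        · exact (e2.2 h6).2
        · rcases e1.2 h with h7 | h7
          · exact absurd h7 (e4 h6)
          · exact h7
    · have e1 := m1 A hiA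
      have e2 := m2 A hiA
      have e4 := hnone A hiA
      have e5 : symmDiff A (insert i C) = insert i (symmDiff A C) := by
        ext x
        simp only [Finset.mem_symmDiff, Finset.mem_insert]
        by_cases hx : x = i
        · subst hx; tauto
        · tauto
      rw [e5, Finset.card_insert_of_notMem (by simp only [Finset.mem_symmDiff]; tauto)]
      constructor
      · intro h
        refine ⟨Finset.mem_univ _, ?_⟩
        have h5 := e1.1 (Or.inl h)
        rcases h5.lt_or_eq with h6 | h6
        · exact h6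
        · exact absurd h (e4 h6)
      · rintro ⟨-, h⟩
        exact (e2.2 h).1

theorem kl2 : KL2Stm := by
  intro ι _ _ d F hn
  induction hw : wt F using Nat.strong_induction_on generalizing F with
  | _ w ih =>
    intro hD
    by_cases hdown : ∀ i, 𝓓 i F = F
    · exact down_case d F hn hD hdown
    · push Not at hdown
      obtain ⟨i, hi⟩ := hdown
      have hlt := wt_comp i F hi
      obtain ⟨k1, k2⟩ := ih (wt (𝓓 i F)) (by omega) (𝓓 i F) rfl (diam_comp hD i)
      rw [Down.card_compression] at k1 k2
      refine ⟨k1, fun hn2 heq => ?_⟩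
      obtain ⟨C, hC⟩ := k2 hn2 heq
      exact rev d F hn2 hD i C hC

theorem kleitman_odd : KL3Stm := kl3 kl2

end Pool.Agent.Helper87.SG
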