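import Pool.Agent.Helper86.SG.Defs

/-! Package SRC of `Pool.Agent.Helper86.SG.Defs`, from FIB. -/

set_option autoImplicit false

open Finset

namespace Pool.Agent.Helper87.SG

open _root_.SG
open _root_.SJ (supp IsV dot fib)

theorem src (hFIB : FIBStm) : SRCStm := by
  classical
  intro n k d F hk hF S hS
  have hSk : S ∈ powersetCard k (univ : Finset (Fin n)) :=
    mem_powersetCard.2 ⟨subset_univ _, hS⟩
  have key : S ∉ HH k d F → #(fib F S) ≤ 2 * BB (k - 1) d ∧
      (2 * BB (k - 1) d ≤ #(fib F S) → ∃ f c, Str k d F S f c) := by
    intro hH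
    refine hFIB n k d F hk hF S hS fun u hu v hv hus hvs => ?_
    by_contra hlt
    obtain ⟨A, hA, hAc⟩ := exists_subset_card_eq
      (show 2 * d + 2 ≤ #(S.filter fun i => u i ≠ v i) by omega)
    apply hH
    unfold HH
    refine mem_filter.2 ⟨hSk, u, hu, hus, A, hAc, fun x hx => ?_, v, hv, fun x hx => ?_⟩
    · rw [hus]
      exact (mem_filter.1 (hA hx)).1
    · have h1 := mem_filter.1 (hA hx)
      have hux : u x ≠ 0 := by
        have h2 : x ∈ supp u := by
          rw [hus]
          exact h1.1
        simpa [supp] using h2
      have hvx : v x ≠ 0 := by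
        have h2 : x ∈ supp v := by
          rw [hvs]
          exact h1.1
        simpa [supp] using h2
      have h3 := h1.2
      rcases (hF u hu).1 x with h | h | h
      · rcases (hF v hv).1 x with h' | h' | h'
        · exact absurd (h.trans h'.symm) h3
        · exact absurd h' hvx
        · rw [h, h']
          norm_num
      · exact absurd h hux
      · rcases (hF v hv).1 x with h' | h' | h'
        · rw [h, h']
        · exact absurd h' hvx
        · exact absurd (h.trans h'.symm) h3
  refine ⟨fun h => (key h).1, fun h => ?_⟩
  unfold EX at h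
  rw [mem_union, not_or] at h
  refine (key h.1).2 ?_
  by_contra hlt
  exact h.2 (mem_filter.2 ⟨hSk, by omega⟩)

end Pool.Agent.Helper87.SG
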