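import Pool.Agent.Helper86.SG.Defs

/-! Package SUM of `Pool.Agent.Helper86.SG.Defs`, from SRC. -/

set_option autoImplicit false

open Finset

namespace Pool.Agent.Helper87.SG

open _root_.SG
open _root_.SJ (supp IsV dot fib)

theorem mem_supp' {n : ℕ} {v : Fin n → ℤ} {i : Fin n} : i ∈ supp v ↔ v i ≠ 0 := by
  simp [supp]

theorem mem_fib' {n : ℕ} {F : Finset (Fin n → ℤ)} {S : Finset (Fin n)} {v : Fin n → ℤ} :
    v ∈ fib F S ↔ v ∈ F ∧ supp v = S := by
  classical
  exact mem_filter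

theorem fib_le_pow {n k : ℕ} {F : Finset (Fin n → ℤ)} (hF : ∀ v ∈ F, IsV n k v)
    (S : Finset (Fin n)) : #(fib F S) ≤ 2 ^ #S := by
  classical
  rw [← card_powerset]
  refine card_le_card_of_injOn (fun v => S.filter (fun i => v i = 1)) ?_ ?_
  · intro v _
    exact mem_coe.2 (mem_powerset.2 (filter_subset _ _))
  · intro v hv w hw h
    obtain ⟨hv1, hv2⟩ := mem_fib'.1 (mem_coe.1 hv)
    obtain ⟨hw1, hw2⟩ := mem_fib'.1 (mem_coe.1 hw)
    funext i
    have h6 : v i = 1 ↔ w i = 1 := by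
      by_cases hi : i ∈ S
      · have h7 := Finset.ext_iff.1 h i
        simp only [mem_filter, hi, true_and] at h7
        exact h7
      · have h8 : v i = 0 := by
          by_contra h9
          exact hi (hv2 ▸ mem_supp'.2 h9)
        have h9 : w i = 0 := by
          by_contra h9
          exact hi (hw2 ▸ mem_supp'.2 h9)
        rw [h8, h9]
    have h7 : v i = 0 ↔ w i = 0 := by
      have h8 : v i ≠ 0 ↔ w i ≠ 0 := by
        rw [← mem_supp', ← mem_supp', hv2, hw2]
      tauto
    rcases (hF v hv1).1 i with h8 | h8 | h8 <;> rcases (hF w hw1).1 i with h9 | h9 | h9 <;>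
      omega

theorem sum (hS : SRCStm) : SUMStm := by
  classical
  intro n k d F hk hF
  obtain ⟨Q, hQ⟩ : ∃ Q, Q = powersetCard k (univ : Finset (Fin n)) := ⟨_, rfl⟩
  have h1 : #F = ∑ S ∈ Q, #(fib F S) := by
    rw [card_eq_sum_card_fiberwise (f := supp) (t := Q)]
    · refine sum_congr rfl fun S _ => ?_
      rfl
    · intro v hv
      rw [hQ]
      exact mem_coe.2 (mem_powersetCard.2 ⟨subset_univ _, (hF v (mem_coe.1 hv)).2⟩)
  have h2 : #(LL k d F) = ∑ S ∈ Q, (if #(fib F S) < 2 * BB (k - 1) d then 1 else 0) := by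
    rw [hQ, LL, card_filter]
  have h3 : #(HH k d F) = ∑ S ∈ Q, (if S ∈ HH k d F then 1 else 0) := by
    rw [← card_filter]
    congr 1
    ext S
    rw [mem_filter, hQ]
    constructor
    · intro h
      exact ⟨(mem_filter.1 h).1, h⟩
    · exact fun h => h.2
  have h4 : n.choose k = ∑ S ∈ Q, 1 := by
    rw [hQ]
    simp
  rw [h1, h2, h3, h4, ← sum_add_distrib, mul_sum, mul_sum, ← sum_add_distrib]
  refine sum_le_sum fun S hSQ => ?_
  rw [hQ, mem_powersetCard] at hSQ
  by_cases hL : #(fib F S) < 2 * BB (k - 1) d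
  · rw [if_pos hL]
    omega
  rw [if_neg hL]
  by_cases hH : S ∈ HH k d F
  · rw [if_pos hH]
    have h5 := fib_le_pow hF S
    rw [hSQ.2] at h5
    omega
  · have h5 := (hS n k d F hk hF S hSQ.2).1 hH
    rw [if_neg hH]
    omega

end Pool.Agent.Helper87.SG
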